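import Pool.Agent.Helper9.UP.StN

set_option autoImplicit false

noncomputable section

namespace Pool.Agent.Helper84.UP

open Finset Polynomial NumberField Module
open Pool.Agent.Helper9.UP

theorem hDC (hC : StCR) : StDC := by
  classical
  intro K _ _ T hG I hI B
  have hfin : Finite (𝓞 K ⧸ I) := Ideal.finiteQuotientOfFreeOfNeBot I hI
  have := Fintype.ofFinite (𝓞 K ⧸ I)
  have hcard : nm K I = (Fintype.card (𝓞 K ⧸ I) : ℝ) := by
    unfold nm
    rw [Ideal.absNorm_apply, Submodule.cardQuot_apply, Nat.card_eq_fintype_card]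
  set R := T ^ 2 * nm K I ^ (1 / (dg K : ℝ)) with hR
  have hrep : ∀ c : 𝓞 K ⧸ I, ∃ c' : 𝓞 K, Ideal.Quotient.mk I c' = c ∧
      ∀ φ : K →+* ℂ, ‖φ (c' : K)‖ ≤ R := by
    intro c
    obtain ⟨a, rfl⟩ := Ideal.Quotient.mk_surjective c
    obtain ⟨c', h1, h2⟩ := hC K T hG I hI a
    exact ⟨c', (Ideal.Quotient.eq.2 h1).symm, h2⟩
  choose r hr1 hr2 using hrep
  have hni : nm K I * ni K I B =
      (((Finset.univ : Finset (𝓞 K ⧸ I)) ×ˢ
        ((ball K B).filter (fun x => x ∈ I))).card : ℝ) := by
    rw [Finset.card_product, Finset.card_univ, hcard]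
    unfold ni
    push_cast
    rfl
  rw [hni]
  unfold nb
  constructor
  · rw [Nat.cast_le]
    apply Finset.card_le_card_of_injOn (fun v => v.2 + r v.1)
    · intro v hv
      simp only [Finset.coe_product, Finset.coe_univ, Set.mem_prod, Set.mem_univ, true_and,
        Finset.mem_coe, Finset.mem_filter] at hv
      simp only [Finset.mem_coe]
      rw [mem_ball]
      intro φ
      have h1 := (mem_ball K B v.2).1 hv.1 φ
      have h2 := hr2 v.1 φ
      have h3 : ((v.2 + r v.1 : 𝓞 K) : K) = (v.2 : K) + (r v.1 : K) := by push_cast; rfl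
      rw [h3, map_add]
      exact (norm_add_le _ _).trans (add_le_add h1 h2)
    · intro v hv w hw h
      simp only [Finset.coe_product, Finset.coe_univ, Set.mem_prod, Set.mem_univ, true_and,
        Finset.mem_coe, Finset.mem_filter] at hv hw
      simp only at h
      have h1 : Ideal.Quotient.mk I (v.2 + r v.1) = v.1 := by
        rw [map_add, hr1, Ideal.Quotient.eq_zero_iff_mem.2 hv.2, zero_add]
      have h2 : Ideal.Quotient.mk I (w.2 + r w.1) = w.1 := by
        rw [map_add, hr1, Ideal.Quotient.eq_zero_iff_mem.2 hw.2, zero_add]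
      have h3 : v.1 = w.1 := by rw [← h1, ← h2, h]
      rw [h3] at h
      exact Prod.ext h3 (add_right_cancel h)
  · rw [Nat.cast_le]
    apply Finset.card_le_card_of_injOn
      (fun x => (Ideal.Quotient.mk I x, x - r (Ideal.Quotient.mk I x)))
    · intro x hx
      simp only [Finset.mem_coe] at hx
      simp only [Finset.coe_product, Finset.coe_univ, Set.mem_prod, Set.mem_univ, true_and,
        Finset.mem_coe, Finset.mem_filter]
      constructor
      · rw [mem_ball]
        intro φ
        have h1 := (mem_ball K (B - R) x).1 hx φ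
        have h2 := hr2 (Ideal.Quotient.mk I x) φ
        have h3 : ((x - r (Ideal.Quotient.mk I x) : 𝓞 K) : K)
            = (x : K) - (r (Ideal.Quotient.mk I x) : K) := by push_cast; rfl
        rw [h3, map_sub]
        refine (norm_sub_le _ _).trans ?_
        linarith
      · apply Ideal.Quotient.eq.1
        rw [hr1]
    · intro x hx y hy h
      simp only [Prod.mk.injEq] at h
      rw [h.1] at h
      exact sub_left_injective h.2

end Pool.Agent.Helper84.UP
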