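import Pool.Agent.Helper9.UP.StW

set_option autoImplicit false

noncomputable section

namespace Pool.Agent.Helper84.UP

open Finset
open Pool.Agent.Helper9.UP

theorem wb_key (p : ℕ) (hp : 0 < p) (A A' : Finset ℕ) (F : ℕ → ℝ)
    (h1 : ∀ q ∈ A, p ∣ q → F (q / p) ≠ 0 → q / p ∈ A')
    (h2 : ∀ q' ∈ A', F q' ≠ 0 → p * q' ∈ A) :
    ∑ q ∈ A.filter (fun q => p ∣ q), F (q / p) = ∑ q' ∈ A', F q' := by
  refine Finset.sum_bij_ne_zero (fun q _ _ => q / p) ?_ ?_ ?_ ?_
  · intro q hq hF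
    rw [mem_filter] at hq
    exact h1 q hq.1 hq.2 hF
  · intro q hq _ r hr _ h
    rw [mem_filter] at hq hr
    have h3 : q / p = r / p := h
    rw [← Nat.mul_div_cancel' hq.2, ← Nat.mul_div_cancel' hr.2, h3]
  · intro q' hq' hF
    refine ⟨p * q', ?_, ?_, ?_⟩
    · rw [mem_filter]
      exact ⟨h2 q' hq' hF, dvd_mul_right _ _⟩
    · rw [Nat.mul_div_cancel_left _ hp]; exact hF
    · exact Nat.mul_div_cancel_left _ hp
  · intro q _ _
    rfl

theorem bx_mem {X ω : ℝ} {i p : ℕ} (hp : p ∈ bx X ω i) :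
    p.Prime ∧ X ^ ((i : ℝ) * ω) ≤ (p : ℝ) ∧ (p : ℝ) < X ^ (((i : ℝ) + 1) * ω) := by
  unfold bx at hp
  rw [mem_filter, mem_range] at hp
  exact ⟨hp.2.1, hp.2.2, Nat.lt_ceil.1 hp.1⟩

theorem bx_notMem_Pr {X ω : ℝ} (hX : 2 ≤ X) (hω : 0 < ω) {j0 j j' p : ℕ} (hj : j ≤ j')
    (hp : p ∈ bx X ω j') : p ∉ Pr X ω j0 j := by
  intro h
  unfold Pr at h
  rw [mem_biUnion] at h
  obtain ⟨i, hi, hpi⟩ := h
  rw [mem_Ico] at hi
  have h1 := (bx_mem hp).2.1
  have h2 := (bx_mem hpi).2.2
  have h3 : X ^ (((i : ℝ) + 1) * ω) ≤ X ^ ((j' : ℝ) * ω) := by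
    apply Real.rpow_le_rpow_of_exponent_le (by linarith)
    apply mul_le_mul_of_nonneg_right _ hω.le
    have : i + 1 ≤ j' := by omega
    exact_mod_cast this
  linarith

theorem Pr_mono {X ω : ℝ} {j0 j j' : ℕ} (hj : j ≤ j') : Pr X ω j0 j ⊆ Pr X ω j0 j' := by
  unfold Pr
  apply biUnion_subset_biUnion_of_subset_left
  intro i hi
  rw [mem_Ico] at hi ⊢
  omega

theorem notDvd {X ω x B : ℝ} {j0 j j' : ℕ} {l : ℕ → ℝ} (hX : 2 ≤ X) (hω : 0 < ω) (hj : j ≤ j')
    (hW : Wt X ω j0 j x B l) {p q : ℕ} (hp : p ∈ bx X ω j') (hq : l q ≠ 0) : ¬ p ∣ q := by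
  intro h
  exact bx_notMem_Pr hX hω hj hp (((hW q).2 hq).1.2 p (bx_mem hp).1 h)

theorem bm_ne {X ω x B : ℝ} {j0 j j' : ℕ} {l : ℕ → ℝ} (hX : 2 ≤ X) (hω : 0 < ω) (hj : j ≤ j')
    (hW : Wt X ω j0 j x B l) {q : ℕ} (hq : bm X ω j' l q ≠ 0) :
    ∃ p ∈ bx X ω j', p ∣ q ∧ l (q / p) ≠ 0 ∧ bm X ω j' l q = l (q / p) := by
  unfold bm at hq ⊢
  obtain ⟨p, hp, hl⟩ := exists_ne_zero_of_sum_ne_zero hq
  rw [mem_filter] at hp
  refine ⟨p, hp.1, hp.2, hl, ?_⟩
  apply sum_eq_single_of_mem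
  · rw [mem_filter]; exact hp
  · intro r hr hne
    rw [mem_filter] at hr
    exfalso
    have h1 : r ∣ p * (q / p) := by rw [Nat.mul_div_cancel' hp.2]; exact hr.2
    have h2 : r ∣ q / p := by
      rcases (Nat.Prime.dvd_mul (bx_mem hr.1).1).1 h1 with h | h
      · exact absurd ((Nat.prime_dvd_prime_iff_eq (bx_mem hr.1).1 (bx_mem hp.1).1).1 h) hne
      · exact h
    exact notDvd hX hω hj hW hr.1 hl h2

theorem GG_mul (g : ℕ → ℝ) {p q : ℕ} (hp : p.Prime) (hpq : ¬ p ∣ q) (hq : q ≠ 0) :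
    GG g (p * q) = g p * GG g q := by
  unfold GG
  rw [Nat.primeFactors_mul hp.ne_zero hq, hp.primeFactors, prod_union]
  · rw [prod_singleton]
  · rw [disjoint_singleton_left]
    intro h
    exact hpq (Nat.dvd_of_mem_primeFactors h)

theorem hWB : StWB := by
  intro X ω x B j0 j j' g l hX hω hx hB hj0 hj hW
  have hX0 : 0 < X := by linarith
  have hbound : ∀ p ∈ bx X ω j', ∀ q, l q ≠ 0 →
      ((p * q : ℕ) : ℝ) ≤ X ^ (x + ((j' : ℝ) + 1) * ω) := by
    intro p hp q hq
    rw [Nat.cast_mul, add_comm, Real.rpow_add hX0]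
    apply mul_le_mul (bx_mem hp).2.2.le ((hW q).2 hq).2 (Nat.cast_nonneg _)
    exact (Real.rpow_pos_of_pos hX0 _).le
  refine ⟨?_, ?_, ?_⟩
  · intro q
    constructor
    · by_cases hq : bm X ω j' l q = 0
      · rw [hq, abs_zero]; exact hB
      · obtain ⟨p, _, _, _, h⟩ := bm_ne hX hω hj hW hq
        rw [h]
        exact (hW _).1
    · intro hq
      obtain ⟨p, hp, hpq, hl, _⟩ := bm_ne hX hω hj hW hq
      have hpp := (bx_mem hp).1
      have hnd := notDvd hX hω hj hW hp hl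
      have hS := ((hW _).2 hl).1
      have hq' : p * (q / p) = q := Nat.mul_div_cancel' hpq
      refine ⟨⟨?_, ?_⟩, ?_⟩
      · rw [← hq']
        rw [Nat.squarefree_mul_iff]
        exact ⟨(Nat.Prime.coprime_iff_not_dvd hpp).2 hnd, hpp.prime.squarefree, hS.1⟩
      · intro r hr hrq
        rw [← hq'] at hrq
        rcases (Nat.Prime.dvd_mul hr).1 hrq with h | h
        · rw [(Nat.prime_dvd_prime_iff_eq hr hpp).1 h]
          unfold Pr
          rw [mem_biUnion]
          exact ⟨j', mem_Ico.2 ⟨by omega, by omega⟩, hp⟩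
        · exact Pr_mono (by omega) (hS.2 r hr h)
      · have := hbound p hp _ hl
        rwa [hq'] at this
  · intro hx2
    have hX2 : ∀ y : ℝ, y ≤ 2 → X ^ y ≤ X ^ 2 := by
      intro y hy
      have := Real.rpow_le_rpow_of_exponent_le (by linarith : (1 : ℝ) ≤ X) hy
      have e : X ^ (2 : ℝ) = X ^ 2 := by norm_cast
      rwa [e] at this
    have hω' : 0 ≤ ((j' : ℝ) + 1) * ω := by positivity
    have step : ∀ p ∈ bx X ω j',
        ∑ q ∈ (range (⌊X ^ 2⌋₊ + 1)).filter (fun q => p ∣ q), l (q / p) * GG g q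
          = g p * ms X g l := by
      intro p hp
      have hpp := (bx_mem hp).1
      have e1 : ∑ q ∈ (range (⌊X ^ 2⌋₊ + 1)).filter (fun q => p ∣ q), l (q / p) * GG g q
          = ∑ q ∈ (range (⌊X ^ 2⌋₊ + 1)).filter (fun q => p ∣ q),
            (fun q' => l q' * GG g (p * q')) (q / p) := by
        apply sum_congr rfl
        intro q hq
        rw [mem_filter] at hq
        simp only
        rw [Nat.mul_div_cancel' hq.2]
      have hk := wb_key p hpp.pos (range (⌊X ^ 2⌋₊ + 1)) (range (⌊X ^ 2⌋₊ + 1))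
        (fun q' => l q' * GG g (p * q')) ?_ ?_
      · rw [e1, hk]
        unfold ms
        rw [mul_sum]
        apply sum_congr rfl
        intro q hq
        by_cases hl : l q = 0
        · rw [hl]; ring
        · have hnd := notDvd hX hω hj hW hp hl
          have hq0 : q ≠ 0 := ((hW q).2 hl).1.1.ne_zero
          rw [GG_mul g hpp hnd hq0]
          ring
      · intro q hq hpq _
        rw [mem_range] at hq ⊢
        exact lt_of_le_of_lt (Nat.div_le_self _ _) hq
      · intro q hq hF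
        have hl : l q ≠ 0 := left_ne_zero_of_mul hF
        rw [mem_range, Nat.lt_succ_iff]
        apply Nat.le_floor
        exact (hbound p hp q hl).trans (hX2 _ hx2)
    unfold ms
    rw [sum_mul]
    calc ∑ q ∈ range (⌊X ^ 2⌋₊ + 1), bm X ω j' l q * GG g q
        = ∑ q ∈ range (⌊X ^ 2⌋₊ + 1), ∑ p ∈ bx X ω j',
            if p ∣ q then l (q / p) * GG g q else 0 := by
          apply sum_congr rfl
          intro q _
          unfold bm
          rw [sum_mul, sum_filter]
      _ = ∑ p ∈ bx X ω j', ∑ q ∈ range (⌊X ^ 2⌋₊ + 1),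
            if p ∣ q then l (q / p) * GG g q else 0 := sum_comm
      _ = _ := by
          apply sum_congr rfl
          intro p hp
          rw [← sum_filter]
          exact step p hp
  · intro n hn
    have step : ∀ p ∈ bx X ω j', p ∣ n →
        ∑ q ∈ n.divisors.filter (fun q => p ∣ q), l (q / p) = ∑ q ∈ n.divisors, l q := by
      intro p hp hpn
      have hpp := (bx_mem hp).1
      apply wb_key p hpp.pos n.divisors n.divisors l
      · intro q hq hpq _
        rw [Nat.mem_divisors] at hq ⊢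
        exact ⟨(Nat.div_dvd_of_dvd hpq).trans hq.1, hq.2⟩
      · intro q hq hl
        rw [Nat.mem_divisors] at hq ⊢
        refine ⟨?_, hq.2⟩
        exact Nat.Coprime.mul_dvd_of_dvd_of_dvd
          ((Nat.Prime.coprime_iff_not_dvd hpp).2 (notDvd hX hω hj hW hp hl)) hpn hq.1
    calc ∑ q ∈ n.divisors, bm X ω j' l q
        = ∑ q ∈ n.divisors, ∑ p ∈ bx X ω j', if p ∣ q then l (q / p) else 0 := by
          apply sum_congr rfl
          intro q _
          unfold bm
          rw [sum_filter]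
      _ = ∑ p ∈ bx X ω j', ∑ q ∈ n.divisors, if p ∣ q then l (q / p) else 0 := sum_comm
      _ = ∑ p ∈ bx X ω j', if p ∣ n then ∑ q ∈ n.divisors, l q else 0 := by
          apply sum_congr rfl
          intro p hp
          by_cases hpn : p ∣ n
          · rw [if_pos hpn, ← sum_filter]
            exact step p hp hpn
          · rw [if_neg hpn]
            apply sum_eq_zero
            intro q hq
            rw [if_neg]
            intro h
            exact hpn (h.trans (Nat.dvd_of_mem_divisors hq))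
      _ = _ := by
          rw [← sum_filter, sum_const, nsmul_eq_mul]
          rfl

end Pool.Agent.Helper84.UP
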